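import Pool.Graph.R_seed8.Rect22.ParLat

set_option autoImplicit false

/-!
Counting pairs of orthogonal vectors, and pairs of vectors of the same length.
-/

namespace Pool.Agent.KS6_32.RL

open Finset Pool.Agent.Rect22

noncomputable def box (M : ℕ) : Finset (ℤ × ℤ) := Icc (-(M : ℤ)) M ×ˢ Icc (-(M : ℤ)) M

theorem mem_box {M : ℕ} {u : ℤ × ℤ} :
    u ∈ box M ↔ (-(M : ℤ) ≤ u.1 ∧ u.1 ≤ M) ∧ (-(M : ℤ) ≤ u.2 ∧ u.2 ≤ M) := by
  unfold box
  rw [mem_product, mem_Icc, mem_Icc]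

theorem mem_box_abs {M : ℕ} {u : ℤ × ℤ} : u ∈ box M ↔ u.1.natAbs ≤ M ∧ u.2.natAbs ≤ M := by
  rw [mem_box]
  omega

theorem icc_card (M : ℕ) : (Icc (-(M : ℤ)) M).card = 2 * M + 1 := by
  rw [Int.card_Icc]
  omega

theorem box_card (M : ℕ) : (box M).card = (2 * M + 1) ^ 2 := by
  unfold box
  rw [card_product, icc_card]
  ring

/-- orthogonal pairs -/
noncomputable def OP (M : ℕ) : Finset ((ℤ × ℤ) × (ℤ × ℤ)) :=
  (box M ×ˢ box M).filter (fun p => p.1 ≠ 0 ∧ p.2 ≠ 0 ∧ p.1.1 * p.2.1 + p.1.2 * p.2.2 = 0)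

theorem exists_prim {u v : ℤ × ℤ} (hu : u ≠ 0) (hv : v ≠ 0)
    (h : u.1 * v.1 + u.2 * v.2 = 0) : ∃ (w : ℤ × ℤ) (s t : ℤ), u = (s * w.1, s * w.2) ∧
      v = (-(t * w.2), t * w.1) ∧ w ≠ 0 ∧ s ≠ 0 ∧ t ≠ 0 := by
  obtain ⟨u1, u2⟩ := u
  obtain ⟨v1, v2⟩ := v
  simp only at h
  have hg : 0 < Int.gcd u1 u2 := by
    rw [Nat.pos_iff_ne_zero]
    intro h0
    rw [Int.gcd_eq_zero_iff] at h0
    exact hu (Prod.ext h0.1 h0.2)
  obtain ⟨w1, w2, hw, e1, e2⟩ := Int.exists_gcd_one hg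
  obtain ⟨g, hgdef⟩ : ∃ g : ℤ, g = (Int.gcd u1 u2 : ℤ) := ⟨_, rfl⟩
  rw [← hgdef] at e1 e2
  have hg0 : g ≠ 0 := by
    rw [hgdef]
    exact_mod_cast hg.ne'
  have hco : IsCoprime w1 w2 := Int.isCoprime_iff_gcd_eq_one.2 hw
  obtain ⟨a, b, hab⟩ := hco
  have h1 : w1 * v1 + w2 * v2 = 0 := by
    have : g * (w1 * v1 + w2 * v2) = 0 := by
      rw [e1, e2] at h
      linear_combination h
    rcases mul_eq_zero.1 this with h2 | h2
    · exact absurd h2 hg0
    · exact h2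
  have hv1 : v1 = -((a * v2 - b * v1) * w2) := by
    linear_combination (-v1) * hab + a * h1
  have hv2 : v2 = (a * v2 - b * v1) * w1 := by
    linear_combination (-v2) * hab + b * h1
  refine ⟨(w1, w2), g, a * v2 - b * v1, ?_, ?_, ?_, hg0, ?_⟩
  · refine Prod.ext ?_ ?_
    · show u1 = g * w1
      linarith [e1, mul_comm w1 g]
    · show u2 = g * w2
      linarith [e2, mul_comm w2 g]
  · exact Prod.ext hv1 hv2
  · intro h0
    have h2 : w1 = 0 := congrArg Prod.fst h0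
    have h3 : w2 = 0 := congrArg Prod.snd h0
    rw [h2, h3] at hab
    simp at hab
  · intro h0
    apply hv
    rw [h0] at hv1 hv2
    exact Prod.ext (by simpa using hv1) (by simpa using hv2)

theorem OP_card (M : ℕ) (hM : 1 ≤ M) : (OP M).card ≤ 225 * M ^ 2 * (Nat.log 2 M + 1) := by
  classical
  let F : ℕ → Finset ((ℤ × ℤ) × (ℤ × ℤ)) := fun j =>
    (box (2 ^ (j + 1)) ×ˢ (Icc (-((M / 2 ^ j : ℕ) : ℤ)) ((M / 2 ^ j : ℕ) : ℤ) ×ˢ
      Icc (-((M / 2 ^ j : ℕ) : ℤ)) ((M / 2 ^ j : ℕ) : ℤ))).image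
      (fun x : (ℤ × ℤ) × (ℤ × ℤ) => ((x.2.1 * x.1.1, x.2.1 * x.1.2),
        (-(x.2.2 * x.1.2), x.2.2 * x.1.1)))
  have hsub : OP M ⊆ (range (Nat.log 2 M + 1)).biUnion F := by
    intro p hp
    unfold OP at hp
    rw [mem_filter, mem_product, mem_box_abs, mem_box_abs] at hp
    obtain ⟨⟨hb1, hb2⟩, hu, hv, ho⟩ := hp
    obtain ⟨w, s, t, e1, e2, hw, hs, ht⟩ := exists_prim hu hv ho
    obtain ⟨u, v⟩ := p
    simp only at e1 e2 hb1 hb2
    subst e1
    subst e2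
    simp only [Int.natAbs_neg, Int.natAbs_mul] at hb1 hb2
    obtain ⟨k, hk⟩ : ∃ k, k = max w.1.natAbs w.2.natAbs := ⟨_, rfl⟩
    have hk1 : w.1.natAbs ≤ k := by rw [hk]; exact le_max_left _ _
    have hk2 : w.2.natAbs ≤ k := by rw [hk]; exact le_max_right _ _
    have hk0 : k ≠ 0 := by
      intro h0
      rw [h0] at hk1 hk2
      apply hw
      exact Prod.ext (by simpa using Int.natAbs_eq_zero.1 (Nat.le_zero.1 hk1))
        (by simpa using Int.natAbs_eq_zero.1 (Nat.le_zero.1 hk2))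
    have hsk : s.natAbs * k ≤ M := by
      rcases le_total w.1.natAbs w.2.natAbs with h | h
      · rw [hk, max_eq_right h]
        exact hb1.2
      · rw [hk, max_eq_left h]
        exact hb1.1
    have htk : t.natAbs * k ≤ M := by
      rcases le_total w.1.natAbs w.2.natAbs with h | h
      · rw [hk, max_eq_right h]
        exact hb2.1
      · rw [hk, max_eq_left h]
        exact hb2.2
    have hs1 : 1 ≤ s.natAbs := Nat.one_le_iff_ne_zero.2 (Int.natAbs_ne_zero.2 hs)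
    have hkM : k ≤ M := by nlinarith
    obtain ⟨j, hj⟩ : ∃ j, j = Nat.log 2 k := ⟨_, rfl⟩
    have hj1 : 2 ^ j ≤ k := by rw [hj]; exact Nat.pow_log_le_self 2 hk0
    have hj2 : k < 2 ^ (j + 1) := by rw [hj]; exact Nat.lt_pow_succ_log_self (by norm_num) k
    have hjM : j ≤ Nat.log 2 M := by rw [hj]; exact Nat.log_mono_right hkM
    rw [mem_biUnion]
    refine ⟨j, mem_range.2 (by omega), ?_⟩
    rw [mem_image]
    have hpos : 0 < 2 ^ j := by positivity
    have hsd : s.natAbs ≤ M / 2 ^ j := by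
      rw [Nat.le_div_iff_mul_le hpos]
      exact (Nat.mul_le_mul_left _ hj1).trans hsk
    have htd : t.natAbs ≤ M / 2 ^ j := by
      rw [Nat.le_div_iff_mul_le hpos]
      exact (Nat.mul_le_mul_left _ hj1).trans htk
    refine ⟨(w, (s, t)), ?_, rfl⟩
    rw [mem_product, mem_box_abs, mem_product, mem_Icc, mem_Icc]
    refine ⟨⟨by show w.1.natAbs ≤ _; omega, by show w.2.natAbs ≤ _; omega⟩, ?_, ?_⟩
    · show -((M / 2 ^ j : ℕ) : ℤ) ≤ s ∧ s ≤ ((M / 2 ^ j : ℕ) : ℤ)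
      omega
    · show -((M / 2 ^ j : ℕ) : ℤ) ≤ t ∧ t ≤ ((M / 2 ^ j : ℕ) : ℤ)
      omega
  have hF : ∀ j ∈ range (Nat.log 2 M + 1), (F j).card ≤ 225 * M ^ 2 := by
    intro j hj
    rw [mem_range] at hj
    refine card_image_le.trans ?_
    rw [card_product, card_product, icc_card, box_card]
    obtain ⟨d, hd⟩ : ∃ d, d = M / 2 ^ j := ⟨_, rfl⟩
    rw [← hd]
    have hpow : 2 ^ j ≤ M := by
      have h1 : 2 ^ j ≤ 2 ^ Nat.log 2 M := Nat.pow_le_pow_right (by norm_num) (by omega)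
      exact h1.trans (Nat.pow_log_le_self 2 (by omega))
    have hd1 : 1 ≤ d := by
      rw [hd]
      exact Nat.div_pos hpow (by positivity)
    have hd2 : 2 ^ j * d ≤ M := by
      rw [hd]
      exact Nat.mul_div_le M (2 ^ j)
    have h2 : 1 ≤ 2 ^ j := Nat.one_le_two_pow
    have h3 : 2 * 2 ^ (j + 1) + 1 ≤ 5 * 2 ^ j := by
      rw [pow_succ]
      omega
    have h4 : 2 * d + 1 ≤ 3 * d := by omega
    calc (2 * 2 ^ (j + 1) + 1) ^ 2 * ((2 * d + 1) * (2 * d + 1))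
        ≤ (5 * 2 ^ j) ^ 2 * ((3 * d) * (3 * d)) :=
          Nat.mul_le_mul (Nat.pow_le_pow_left h3 2) (Nat.mul_le_mul h4 h4)
      _ = 225 * (2 ^ j * d) ^ 2 := by ring
      _ ≤ 225 * M ^ 2 := Nat.mul_le_mul_left _ (Nat.pow_le_pow_left hd2 2)
  refine (card_le_card hsub).trans (card_biUnion_le.trans ((sum_le_sum hF).trans ?_))
  rw [sum_const, card_range, smul_eq_mul, mul_comm]

/-- vectors orthogonal to a given one -/
theorem orth_card (M : ℕ) {u : ℤ × ℤ} (hu : u ≠ 0) :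
    ((box M).filter (fun v => u.1 * v.1 + u.2 * v.2 = 0)).card ≤ 2 * M + 1 := by
  rw [← icc_card M]
  by_cases h2 : u.2 = 0
  · have h1 : u.1 ≠ 0 := fun h1 => hu (Prod.ext h1 h2)
    apply card_le_card_of_injOn (fun v => v.2)
    · intro v hv
      have := (mem_filter.1 (mem_coe.1 hv)).1
      rw [mem_box] at this
      rw [mem_coe, mem_Icc]
      exact this.2
    · intro v hv v' hv' h
      have e1 := (mem_filter.1 (mem_coe.1 hv)).2
      have e2 := (mem_filter.1 (mem_coe.1 hv')).2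
      rw [h2, zero_mul, add_zero] at e1 e2
      have e3 := (mul_eq_zero.1 e1).resolve_left h1
      have e4 := (mul_eq_zero.1 e2).resolve_left h1
      exact Prod.ext (e3.trans e4.symm) h
  · apply card_le_card_of_injOn (fun v => v.1)
    · intro v hv
      have := (mem_filter.1 (mem_coe.1 hv)).1
      rw [mem_box] at this
      rw [mem_coe, mem_Icc]
      exact this.1
    · intro v hv v' hv' h
      have e1 := (mem_filter.1 (mem_coe.1 hv)).2
      have e2 := (mem_filter.1 (mem_coe.1 hv')).2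
      simp only at h
      refine Prod.ext h ?_
      apply mul_left_cancel₀ h2
      rw [h] at e1
      linarith

/-- orthogonal pairs with a given combination -/
theorem OP_pair (M : ℕ) (hM : 1 ≤ M) {d : ℤ × ℤ} (hd : d ≠ 0) (i j : ℤ) (hij : i ≠ 0 ∨ j ≠ 0) :
    ((OP M).filter (fun p => i * p.1.1 + j * p.2.1 = d.1 ∧ i * p.1.2 + j * p.2.2 = d.2)).card ≤
      6 * M := by
  classical
  set S := (OP M).filter
    (fun p => i * p.1.1 + j * p.2.1 = d.1 ∧ i * p.1.2 + j * p.2.2 = d.2) with hS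
  have hmem : ∀ p ∈ S, (p.1 ∈ box M ∧ p.2 ∈ box M) ∧ (p.1 ≠ 0 ∧ p.2 ≠ 0 ∧
      p.1.1 * p.2.1 + p.1.2 * p.2.2 = 0) ∧ i * p.1.1 + j * p.2.1 = d.1 ∧
      i * p.1.2 + j * p.2.2 = d.2 := by
    intro p hp
    rw [hS, mem_filter] at hp
    have h1 := hp.1
    unfold OP at h1
    rw [mem_filter, mem_product] at h1
    exact ⟨h1.1, h1.2, hp.2⟩
  rcases S.eq_empty_or_nonempty with h0 | ⟨p0, hp0⟩
  · rw [h0]
    simp
  by_cases hi : i = 0
  · have hj : j ≠ 0 := hij.resolve_left (fun h => h hi)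
    have hfix : ∀ p ∈ S, p.2 = p0.2 := by
      intro p hp
      obtain ⟨-, -, e1, e2⟩ := hmem p hp
      obtain ⟨-, -, e3, e4⟩ := hmem p0 hp0
      rw [hi, zero_mul, zero_add] at e1 e2 e3 e4
      refine Prod.ext ?_ ?_
      · exact mul_left_cancel₀ hj (by rw [e1, e3])
      · exact mul_left_cancel₀ hj (by rw [e2, e4])
    have h1 : S.card ≤ ((box M).filter (fun v => p0.2.1 * v.1 + p0.2.2 * v.2 = 0)).card := by
      apply card_le_card_of_injOn (fun p => p.1)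
      · intro p hp
        obtain ⟨h1, h2, -⟩ := hmem p (mem_coe.1 hp)
        rw [mem_coe, mem_filter]
        refine ⟨h1.1, ?_⟩
        rw [← hfix p (mem_coe.1 hp)]
        linarith [h2.2.2]
      · intro p hp p' hp' h
        exact Prod.ext h ((hfix p (mem_coe.1 hp)).trans (hfix p' (mem_coe.1 hp')).symm)
    have h2 := orth_card M (hmem p0 hp0).2.1.2.1
    omega
  by_cases hj : j = 0
  · have hfix : ∀ p ∈ S, p.1 = p0.1 := by
      intro p hp
      obtain ⟨-, -, e1, e2⟩ := hmem p hp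
      obtain ⟨-, -, e3, e4⟩ := hmem p0 hp0
      rw [hj, zero_mul, add_zero] at e1 e2 e3 e4
      refine Prod.ext ?_ ?_
      · exact mul_left_cancel₀ hi (by rw [e1, e3])
      · exact mul_left_cancel₀ hi (by rw [e2, e4])
    have h1 : S.card ≤ ((box M).filter (fun v => p0.1.1 * v.1 + p0.1.2 * v.2 = 0)).card := by
      apply card_le_card_of_injOn (fun p => p.2)
      · intro p hp
        obtain ⟨h1, h2, -⟩ := hmem p (mem_coe.1 hp)
        rw [mem_coe, mem_filter]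
        refine ⟨h1.2, ?_⟩
        rw [← hfix p (mem_coe.1 hp)]
        exact h2.2.2
      · intro p hp p' hp' h
        exact Prod.ext ((hfix p (mem_coe.1 hp)).trans (hfix p' (mem_coe.1 hp')).symm) h
    have h2 := orth_card M (hmem p0 hp0).2.1.1
    omega
  -- both coefficients nonzero
  have h1 : S.card ≤ 2 * (Icc (-(M : ℤ)) M).card := by
    apply card_le_mul_card_image_of_maps_to (f := fun p => p.1.1)
    · intro p hp
      obtain ⟨h1, -, -⟩ := hmem p hp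
      have := h1.1
      rw [mem_box] at this
      rw [mem_Icc]
      exact this.1
    · intro x hx
      by_contra hlt
      rw [not_le, two_lt_card] at hlt
      obtain ⟨p, hp, p', hp', p'', hp'', n1, n2, n3⟩ := hlt
      rw [mem_filter] at hp hp' hp''
      obtain ⟨-, ⟨-, -, o1⟩, a1, b1⟩ := hmem p hp.1
      obtain ⟨-, ⟨-, -, o2⟩, a2, b2⟩ := hmem p' hp'.1
      obtain ⟨-, ⟨-, -, o3⟩, a3, b3⟩ := hmem p'' hp''.1
      -- the pair is determined by the second coordinate of its first vector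
      have hdet : ∀ p p' : (ℤ × ℤ) × (ℤ × ℤ), p.1.1 = x → p'.1.1 = x →
          i * p.1.1 + j * p.2.1 = d.1 → i * p.1.2 + j * p.2.2 = d.2 →
          i * p'.1.1 + j * p'.2.1 = d.1 → i * p'.1.2 + j * p'.2.2 = d.2 →
          p.1.2 = p'.1.2 → p = p' := by
        intro p p' h1 h2 h3 h4 h5 h6 h7
        refine Prod.ext (Prod.ext (h1.trans h2.symm) h7) (Prod.ext ?_ ?_)
        · apply mul_left_cancel₀ hj
          rw [h1] at h3
          rw [h2] at h5
          linarith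
        · apply mul_left_cancel₀ hj
          rw [h7] at h4
          linarith
      have hq : ∀ p : (ℤ × ℤ) × (ℤ × ℤ), p.1.1 = x →
          p.1.1 * p.2.1 + p.1.2 * p.2.2 = 0 →
          i * p.1.1 + j * p.2.1 = d.1 → i * p.1.2 + j * p.2.2 = d.2 →
          i * (x * x + p.1.2 * p.1.2) = x * d.1 + p.1.2 * d.2 := by
        intro p h1 h2 h3 h4
        rw [← h3, ← h4, ← h1]
        linear_combination (-j) * h2
      have q1 := hq p hp.2 o1 a1 b1
      have q2 := hq p' hp'.2 o2 a2 b2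
      have q3 := hq p'' hp''.2 o3 a3 b3
      have m1 : p.1.2 ≠ p'.1.2 := fun h => n1 (hdet p p' hp.2 hp'.2 a1 b1 a2 b2 h)
      have m2 : p.1.2 ≠ p''.1.2 := fun h => n2 (hdet p p'' hp.2 hp''.2 a1 b1 a3 b3 h)
      have m3 : p'.1.2 ≠ p''.1.2 := fun h => n3 (hdet p' p'' hp'.2 hp''.2 a2 b2 a3 b3 h)
      have r1 : i * (p.1.2 + p'.1.2) = d.2 := by
        apply mul_left_cancel₀ (sub_ne_zero.2 m1)
        linear_combination q1 - q2
      have r2 : i * (p.1.2 + p''.1.2) = d.2 := by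
        apply mul_left_cancel₀ (sub_ne_zero.2 m2)
        linear_combination q1 - q3
      apply m3
      apply mul_left_cancel₀ hi
      linarith
  rw [icc_card] at h1
  omega

/-! ### rectangles and rhombuses -/

/-- steps of a rectangle or of a rhombus -/
def Sp (p : (ℤ × ℤ) × (ℤ × ℤ)) : Prop :=
  p.1.1 * p.2.1 + p.1.2 * p.2.2 = 0 ∨
    p.1.1 * p.1.1 + p.1.2 * p.1.2 = p.2.1 * p.2.1 + p.2.2 * p.2.2

instance (p : (ℤ × ℤ) × (ℤ × ℤ)) : Decidable (Sp p) := by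
  unfold Sp
  infer_instance

noncomputable def SP (M : ℕ) : Finset ((ℤ × ℤ) × (ℤ × ℤ)) :=
  (box M ×ˢ box M).filter (fun p => det2 p.1 p.2 ≠ 0 ∧ Sp p)

def phi (p : (ℤ × ℤ) × (ℤ × ℤ)) : (ℤ × ℤ) × (ℤ × ℤ) :=
  ((p.1.1 - p.2.1, p.1.2 - p.2.2), (p.1.1 + p.2.1, p.1.2 + p.2.2))

theorem phi_inj : Function.Injective phi := by
  rintro ⟨⟨a, b⟩, ⟨c, d⟩⟩ ⟨⟨a', b'⟩, ⟨c', d'⟩⟩ h
  simp only [phi, Prod.mk.injEq] at h ⊢
  omega

theorem phi_mem {M : ℕ} {p : (ℤ × ℤ) × (ℤ × ℤ)} (h1 : p.1 ∈ box M) (h2 : p.2 ∈ box M)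
    (hd : det2 p.1 p.2 ≠ 0)
    (h : p.1.1 * p.1.1 + p.1.2 * p.1.2 = p.2.1 * p.2.1 + p.2.2 * p.2.2) :
    phi p ∈ OP (2 * M) := by
  unfold OP
  rw [mem_filter, mem_product]
  rw [mem_box] at h1 h2
  unfold det2 at hd
  unfold phi
  refine ⟨⟨?_, ?_⟩, ?_, ?_, ?_⟩
  · rw [mem_box]
    push_cast
    omega
  · rw [mem_box]
    push_cast
    omega
  · intro h0
    have e1 : p.1.1 - p.2.1 = 0 := congrArg Prod.fst h0
    have e2 : p.1.2 - p.2.2 = 0 := congrArg Prod.snd h0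
    apply hd
    rw [sub_eq_zero.1 e1, sub_eq_zero.1 e2]
    ring
  · intro h0
    have e1 : p.1.1 + p.2.1 = 0 := congrArg Prod.fst h0
    have e2 : p.1.2 + p.2.2 = 0 := congrArg Prod.snd h0
    apply hd
    rw [eq_neg_of_add_eq_zero_left e1, eq_neg_of_add_eq_zero_left e2]
    ring
  · show (p.1.1 - p.2.1) * (p.1.1 + p.2.1) + (p.1.2 - p.2.2) * (p.1.2 + p.2.2) = 0
    linear_combination h

theorem mem_SP {M : ℕ} {p : (ℤ × ℤ) × (ℤ × ℤ)} :
    p ∈ SP M ↔ (p.1 ∈ box M ∧ p.2 ∈ box M) ∧ det2 p.1 p.2 ≠ 0 ∧ Sp p := by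
  unfold SP
  rw [mem_filter, mem_product]

theorem SP_split {M : ℕ} {p : (ℤ × ℤ) × (ℤ × ℤ)} (hp : p ∈ SP M) :
    p ∈ OP M ∨ phi p ∈ OP (2 * M) := by
  obtain ⟨⟨h1, h2⟩, hd, h⟩ := mem_SP.1 hp
  rcases h with h | h
  · left
    unfold OP
    rw [mem_filter, mem_product]
    unfold det2 at hd
    refine ⟨⟨h1, h2⟩, ?_, ?_, h⟩
    · intro h0
      apply hd
      rw [h0]
      simp
    · intro h0
      apply hd
      rw [h0]
      simp
  · right
    exact phi_mem h1 h2 hd h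

theorem SP_card (M : ℕ) (hM : 1 ≤ M) : (SP M).card ≤ 1125 * M ^ 2 * (Nat.log 2 M + 2) := by
  classical
  have hsub : SP M ⊆ OP M ∪ (OP (2 * M)).preimage phi phi_inj.injOn := by
    intro p hp
    rw [mem_union, mem_preimage]
    exact SP_split hp
  have h1 := OP_card M hM
  have h2 := OP_card (2 * M) (by omega)
  have h3 : ((OP (2 * M)).preimage phi phi_inj.injOn).card ≤ (OP (2 * M)).card := by
    apply card_le_card_of_injOn phi
    · intro p hp
      exact mem_preimage.1 (mem_coe.1 hp)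
    · exact phi_inj.injOn
  have h4 : Nat.log 2 (2 * M) = Nat.log 2 M + 1 := by
    rw [mul_comm]
    exact Nat.log_mul_base (by norm_num) (by omega)
  rw [h4] at h2
  calc (SP M).card ≤ (OP M).card + ((OP (2 * M)).preimage phi phi_inj.injOn).card :=
        (card_le_card hsub).trans (card_union_le _ _)
    _ ≤ 225 * M ^ 2 * (Nat.log 2 M + 1) + 225 * (2 * M) ^ 2 * (Nat.log 2 M + 1 + 1) :=
        Nat.add_le_add h1 (h3.trans h2)
    _ ≤ 225 * M ^ 2 * (Nat.log 2 M + 2) + 225 * (2 * M) ^ 2 * (Nat.log 2 M + 2) := by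
        gcongr
        omega
    _ = 1125 * M ^ 2 * (Nat.log 2 M + 2) := by ring

theorem SP_pair (M : ℕ) (hM : 1 ≤ M) {d : ℤ × ℤ} (hd : d ≠ 0) (i j : ℤ)
    (hij : i ≠ 0 ∨ j ≠ 0) : ((SP M).filter (fun p =>
      i * p.1.1 + j * p.2.1 = d.1 ∧ i * p.1.2 + j * p.2.2 = d.2)).card ≤ 18 * M := by
  classical
  have h1 := OP_pair M hM hd i j hij
  have hd' : ((2 * d.1, 2 * d.2) : ℤ × ℤ) ≠ 0 := by
    intro h0
    apply hd
    have e1 : 2 * d.1 = 0 := congrArg Prod.fst h0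
    have e2 : 2 * d.2 = 0 := congrArg Prod.snd h0
    exact Prod.ext (by show d.1 = 0; omega) (by show d.2 = 0; omega)
  have h2 := OP_pair (2 * M) (by omega) hd' (i - j) (i + j) (by omega)
  set T1 := (OP M).filter
    (fun p => i * p.1.1 + j * p.2.1 = d.1 ∧ i * p.1.2 + j * p.2.2 = d.2)
  set T2 := (OP (2 * M)).filter (fun p => (i - j) * p.1.1 + (i + j) * p.2.1 =
    ((2 * d.1, 2 * d.2) : ℤ × ℤ).1 ∧ (i - j) * p.1.2 + (i + j) * p.2.2 =
    ((2 * d.1, 2 * d.2) : ℤ × ℤ).2) with hT2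
  have h3 : (T2.preimage phi phi_inj.injOn).card ≤ T2.card := by
    apply card_le_card_of_injOn phi
    · intro p hp
      exact mem_preimage.1 (mem_coe.1 hp)
    · exact phi_inj.injOn
  have hsub : (SP M).filter (fun p =>
      i * p.1.1 + j * p.2.1 = d.1 ∧ i * p.1.2 + j * p.2.2 = d.2) ⊆
      T1 ∪ T2.preimage phi phi_inj.injOn := by
    intro p hp
    rw [mem_filter] at hp
    rw [mem_union, mem_preimage]
    rcases SP_split hp.1 with h | h
    · left
      exact mem_filter.2 ⟨h, hp.2⟩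
    · right
      rw [hT2, mem_filter]
      refine ⟨h, ?_, ?_⟩
      · show (i - j) * (p.1.1 - p.2.1) + (i + j) * (p.1.1 + p.2.1) = 2 * d.1
        linear_combination 2 * hp.2.1
      · show (i - j) * (p.1.2 - p.2.2) + (i + j) * (p.1.2 + p.2.2) = 2 * d.2
        linear_combination 2 * hp.2.2
  have h4 := (card_le_card hsub).trans (card_union_le _ _)
  omega

end Pool.Agent.KS6_32.RL
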