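import Pool.Agent.KS6_32.RL.Count

set_option autoImplicit false
set_option linter.unusedVariables false

/-!
The family of the rectangle and rhombus lattices.
-/

namespace Pool.Agent.KS6_32.RL

open Finset Pool.Agent.Rect22

noncomputable def FamS (N q h : ℕ) : Finset (Finset (ℤ × ℤ)) :=
  ((Idx4 N q h).filter (fun A => Sp A.2)).image (latZ q)

theorem FamS_sub (N q h : ℕ) : FamS N q h ⊆ Fam4 N q h :=
  image_subset_image (filter_subset _ _)

theorem mem_FamS {N q h : ℕ} {A : Finset (ℤ × ℤ)} (hA : A ∈ FamS N q h) :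
    ∃ I : Ind, I.1 ∈ boardZ N ∧ I.2.1 ∈ box N ∧ I.2.2 ∈ box N ∧ det2 I.2.1 I.2.2 ≠ 0 ∧
      latZ q I ⊆ boardZ N ∧ Sp I.2 ∧ latZ q I = A := by
  unfold FamS at hA
  rw [mem_image] at hA
  obtain ⟨I, hI, hIA⟩ := hA
  rw [mem_filter] at hI
  obtain ⟨h1, h2⟩ := hI
  unfold Idx4 at h1
  rw [mem_filter, mem_product, mem_product] at h1
  exact ⟨I, h1.1.1, h1.1.2.1, h1.1.2.2, h1.2.1, h1.2.2.1, h2, hIA⟩

theorem step_small {N q : ℕ} (hq : 2 ≤ q) {I : Ind} (hsub : latZ q I ⊆ boardZ N) :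
    I.2.1 ∈ box (N / (q - 1)) ∧ I.2.2 ∈ box (N / (q - 1)) := by
  have hmem : ∀ i j : ℕ, i < q → j < q → pt I.1 I.2.1 I.2.2 (i : ℤ) (j : ℤ) ∈ boardZ N := by
    intro i j hi hj
    apply hsub
    unfold latZ
    rw [mem_image]
    exact ⟨(i, j), by rw [mem_product, mem_range, mem_range]; exact ⟨hi, hj⟩, rfl⟩
  have h00 := hmem 0 0 (by omega) (by omega)
  have h10 := hmem (q - 1) 0 (by omega) (by omega)
  have h01 := hmem 0 (q - 1) (by omega) (by omega)
  unfold boardZ pt at h00 h10 h01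
  rw [mem_product, mem_Icc, mem_Icc] at h00 h10 h01
  simp only [Nat.cast_zero, zero_mul, add_zero] at h00 h10 h01
  obtain ⟨k, hk⟩ : ∃ k : ℕ, k = q - 1 := ⟨_, rfl⟩
  rw [← hk] at h10 h01 ⊢
  have hk1 : 0 < k := by omega
  have key : ∀ a x : ℤ, 1 ≤ x → x ≤ N → 1 ≤ x + (k : ℤ) * a → x + (k : ℤ) * a ≤ N →
      a.natAbs ≤ N / k := by
    intro a x h1 h2 h3 h4
    rw [Nat.le_div_iff_mul_le hk1]
    have h5 : ((k : ℤ) * a).natAbs ≤ N := by omega
    rw [Int.natAbs_mul, Int.natAbs_natCast] at h5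
    rw [mul_comm]
    exact h5
  constructor
  · rw [mem_box_abs]
    exact ⟨key _ _ h00.1.1 h00.1.2 h10.1.1 h10.1.2, key _ _ h00.2.1 h00.2.2 h10.2.1 h10.2.2⟩
  · rw [mem_box_abs]
    exact ⟨key _ _ h00.1.1 h00.1.2 h01.1.1 h01.1.2, key _ _ h00.2.1 h00.2.2 h01.2.1 h01.2.2⟩

theorem SP_zero : SP 0 = ∅ := by
  rw [eq_empty_iff_forall_notMem]
  intro p hp
  obtain ⟨⟨h1, h2⟩, hd, -⟩ := mem_SP.1 hp
  rw [mem_box] at h1 h2
  push_cast at h1 h2
  apply hd
  unfold det2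
  have e1 : p.1.1 = 0 := by omega
  have e2 : p.1.2 = 0 := by omega
  rw [e1, e2]
  ring

theorem FamS_card {N q h : ℕ} (hq : 2 ≤ q) (hlog : Nat.log 2 N + 2 ≤ 4 * (q - 1) ^ 2) :
    (FamS N q h).card ≤ 4500 * N ^ 4 := by
  classical
  obtain ⟨M, hM⟩ : ∃ M, M = N / (q - 1) := ⟨_, rfl⟩
  have hsub : FamS N q h ⊆ (boardZ N ×ˢ SP M).image (latZ q) := by
    intro A hA
    obtain ⟨I, hP, -, -, hd, hs, hS, rfl⟩ := mem_FamS hA
    rw [mem_image]
    refine ⟨I, ?_, rfl⟩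
    rw [mem_product, mem_SP]
    have := step_small hq hs
    rw [← hM] at this
    exact ⟨hP, this, hd, hS⟩
  have h1 := (card_le_card hsub).trans card_image_le
  rw [card_product, board_card] at h1
  rcases Nat.eq_zero_or_pos M with h0 | h0
  · rw [h0, SP_zero, card_empty, mul_zero] at h1
    omega
  have h2 := SP_card M h0
  have hMq : M * (q - 1) ≤ N := by
    rw [hM]
    exact Nat.div_mul_le_self N (q - 1)
  have hMN : M ≤ N := by
    have : M * 1 ≤ M * (q - 1) := Nat.mul_le_mul_left _ (by omega)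
    omega
  have hlM : Nat.log 2 M ≤ Nat.log 2 N := Nat.log_mono_right hMN
  calc (FamS N q h).card ≤ N * N * (SP M).card := h1
    _ ≤ N * N * (1125 * M ^ 2 * (Nat.log 2 M + 2)) := Nat.mul_le_mul_left _ h2
    _ ≤ N * N * (1125 * M ^ 2 * (4 * (q - 1) ^ 2)) := by
        apply Nat.mul_le_mul_left
        apply Nat.mul_le_mul_left
        omega
    _ = 4500 * (N ^ 2 * (M * (q - 1)) ^ 2) := by ring
    _ ≤ 4500 * (N ^ 2 * N ^ 2) := by
        apply Nat.mul_le_mul_left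
        apply Nat.mul_le_mul_left
        exact Nat.pow_le_pow_left hMq 2
    _ = 4500 * N ^ 4 := by ring

theorem FamS_deg {N q : ℕ} (h : ℕ) (hN : 1 ≤ N) (hlog : Nat.log 2 N + 2 ≤ 4 * (q - 1) ^ 2)
    (z : ℤ × ℤ) :
    ((FamS N q h).filter (fun A => z ∈ A)).card ≤ 4500 * N ^ 2 * q ^ 4 := by
  classical
  have hsub : (FamS N q h).filter (fun A => z ∈ A) ⊆
      (SP N ×ˢ (range q ×ˢ range q)).image (fun x : ((ℤ × ℤ) × (ℤ × ℤ)) × (ℕ × ℕ) =>
          latZ q ((z.1 - x.2.1 * x.1.1.1 - x.2.2 * x.1.2.1,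
            z.2 - x.2.1 * x.1.1.2 - x.2.2 * x.1.2.2), (x.1.1, x.1.2))) := by
    intro A hA
    rw [mem_filter] at hA
    obtain ⟨I, -, hu, hv, hd, -, hS, rfl⟩ := mem_FamS hA.1
    have hz := hA.2
    unfold latZ at hz
    rw [mem_image] at hz
    obtain ⟨⟨i, j⟩, hij, hz⟩ := hz
    rw [mem_image]
    refine ⟨((I.2.1, I.2.2), (i, j)), ?_, ?_⟩
    · rw [mem_product, mem_SP]
      exact ⟨⟨⟨hu, hv⟩, hd, hS⟩, hij⟩
    · simp only
      congr 1
      obtain ⟨P, u, v⟩ := I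
      simp only [pt] at hz
      rw [← hz]
      simp only
      congr 1
      ext
      · show P.1 + i * u.1 + j * v.1 - i * u.1 - j * v.1 = P.1
        ring
      · show P.2 + i * u.2 + j * v.2 - i * u.2 - j * v.2 = P.2
        ring
  have h2 := SP_card N hN
  have h3 : (q - 1) ^ 2 ≤ q ^ 2 := Nat.pow_le_pow_left (by omega) 2
  refine (card_le_card hsub).trans (card_image_le.trans ?_)
  rw [card_product, card_product, card_range]
  calc (SP N).card * (q * q) ≤ 1125 * N ^ 2 * (Nat.log 2 N + 2) * (q * q) :=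
        Nat.mul_le_mul_right _ h2
    _ ≤ 1125 * N ^ 2 * (4 * q ^ 2) * (q * q) := by
        apply Nat.mul_le_mul_right
        apply Nat.mul_le_mul_left
        omega
    _ = 4500 * N ^ 2 * q ^ 4 := by ring

theorem FamS_pdeg {N q : ℕ} (h : ℕ) (hN : 1 ≤ N) {x z : ℤ × ℤ} (hxz : x ≠ z) :
    ((FamS N q h).filter (fun A => x ∈ A ∧ z ∈ A)).card ≤ 18 * N * q ^ 4 := by
  classical
  let G : (ℕ × ℕ) × (ℕ × ℕ) → Finset (Finset (ℤ × ℤ)) := fun t =>
    ((SP N).filter (fun p => ((t.2.1 : ℤ) - t.1.1) * p.1.1 + ((t.2.2 : ℤ) - t.1.2) * p.2.1 =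
      (z.1 - x.1, z.2 - x.2).1 ∧ ((t.2.1 : ℤ) - t.1.1) * p.1.2 + ((t.2.2 : ℤ) - t.1.2) * p.2.2 =
      (z.1 - x.1, z.2 - x.2).2)).image (fun p => latZ q ((x.1 - t.1.1 * p.1.1 - t.1.2 * p.2.1,
        x.2 - t.1.1 * p.1.2 - t.1.2 * p.2.2), p))
  have hd : ((z.1 - x.1, z.2 - x.2) : ℤ × ℤ) ≠ 0 := by
    intro h0
    apply hxz
    have e1 : z.1 - x.1 = 0 := congrArg Prod.fst h0
    have e2 : z.2 - x.2 = 0 := congrArg Prod.snd h0
    exact Prod.ext (by omega) (by omega)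
  have hsub : (FamS N q h).filter (fun A => x ∈ A ∧ z ∈ A) ⊆
      ((range q ×ˢ range q) ×ˢ (range q ×ˢ range q)).biUnion G := by
    intro A hA
    rw [mem_filter] at hA
    obtain ⟨hA1, hxA, hzA⟩ := hA
    obtain ⟨I, -, hu, hv, hdet, -, hS, rfl⟩ := mem_FamS hA1
    unfold latZ at hxA hzA
    rw [mem_image] at hxA hzA
    obtain ⟨⟨i, j⟩, hij, hx⟩ := hxA
    obtain ⟨⟨i', j'⟩, hij', hz⟩ := hzA
    rw [mem_biUnion]
    refine ⟨((i, j), (i', j')), by rw [mem_product]; exact ⟨hij, hij'⟩, ?_⟩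
    show _ ∈ Finset.image _ _
    obtain ⟨P, u, v⟩ := I
    simp only [pt] at hx hz
    rw [mem_image]
    refine ⟨(u, v), ?_, ?_⟩
    · rw [mem_filter, mem_SP]
      refine ⟨⟨⟨hu, hv⟩, hdet, hS⟩, ?_, ?_⟩
      · rw [← hx, ← hz]
        show ((i' : ℤ) - i) * u.1 + ((j' : ℤ) - j) * v.1 =
          P.1 + i' * u.1 + j' * v.1 - (P.1 + i * u.1 + j * v.1)
        ring
      · rw [← hx, ← hz]
        show ((i' : ℤ) - i) * u.2 + ((j' : ℤ) - j) * v.2 =
          P.2 + i' * u.2 + j' * v.2 - (P.2 + i * u.2 + j * v.2)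
        ring
    · rw [← hx]
      show latZ q ((P.1 + i * u.1 + j * v.1 - i * u.1 - j * v.1,
        P.2 + i * u.2 + j * v.2 - i * u.2 - j * v.2), (u, v)) = latZ q (P, (u, v))
      congr 2
      refine Prod.ext ?_ ?_
      · show P.1 + i * u.1 + j * v.1 - i * u.1 - j * v.1 = P.1
        ring
      · show P.2 + i * u.2 + j * v.2 - i * u.2 - j * v.2 = P.2
        ring
  have hG : ∀ t ∈ (range q ×ˢ range q) ×ˢ (range q ×ˢ range q), (G t).card ≤ 18 * N := by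
    intro t ht
    refine card_image_le.trans ?_
    by_cases h0 : (t.2.1 : ℤ) - t.1.1 ≠ 0 ∨ (t.2.2 : ℤ) - t.1.2 ≠ 0
    · exact SP_pair N hN hd _ _ h0
    · push Not at h0
      rw [h0.1, h0.2]
      have : (SP N).filter (fun p => (0 : ℤ) * p.1.1 + 0 * p.2.1 =
          (z.1 - x.1, z.2 - x.2).1 ∧ (0 : ℤ) * p.1.2 + 0 * p.2.2 =
          (z.1 - x.1, z.2 - x.2).2) = ∅ := by
        rw [eq_empty_iff_forall_notMem]
        intro p hp
        rw [mem_filter] at hp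
        apply hd
        obtain ⟨-, e1, e2⟩ := hp
        refine Prod.ext ?_ ?_
        · rw [← e1]
          show (0 : ℤ) * p.1.1 + 0 * p.2.1 = 0
          ring
        · rw [← e2]
          show (0 : ℤ) * p.1.2 + 0 * p.2.2 = 0
          ring
      rw [this, card_empty]
      omega
  refine (card_le_card hsub).trans (card_biUnion_le.trans ((sum_le_sum hG).trans ?_))
  rw [sum_const, card_product, card_product, card_range, smul_eq_mul]
  apply le_of_eq
  ring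

theorem FamS_of_has {N q h q0 : ℕ} (hh : 1 ≤ h) (hq : 1 ≤ q) (hq0 : q + h ≤ q0)
    {M : Finset (ℤ × ℤ)} (hM : M ⊆ boardZ N) {P u v : ℤ × ℤ} (hd : det2 u v ≠ 0)
    (hs : Sp (u, v)) (hpt : ∀ i j : ℕ, i < q0 → j < q0 → pt P u v (i : ℤ) (j : ℤ) ∈ M) :
    ∃ A ∈ FamS N q h, A ⊆ M := by
  obtain ⟨a, ha, hak⟩ := exists_shift h hh (det2 P v / det2 u v)
  obtain ⟨b, hb, hbl⟩ := exists_shift h hh (det2 u P / det2 u v)
  have hsub : latZ q (pt P u v a b, (u, v)) ⊆ M := by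
    intro x hx
    unfold latZ at hx
    rw [mem_image] at hx
    obtain ⟨⟨i, j⟩, hij, rfl⟩ := hx
    rw [mem_product, mem_range, mem_range] at hij
    have h1 := hpt (a + i) (b + j) (by have := hij.1; simp only at this; omega)
      (by have := hij.2; simp only at this; omega)
    have e : pt (pt P u v a b) u v (i : ℤ) (j : ℤ) =
        pt P u v ((a + i : ℕ) : ℤ) ((b + j : ℕ) : ℤ) := by
      unfold pt
      refine Prod.ext ?_ ?_
      · push_cast
        ring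
      · push_cast
        ring
    show pt (pt P u v a b) u v (i : ℤ) (j : ℤ) ∈ M
    rw [e]
    exact h1
  refine ⟨latZ q (pt P u v a b, (u, v)), ?_, hsub⟩
  unfold FamS
  refine mem_image_of_mem _ ?_
  rw [mem_filter]
  refine ⟨?_, hs⟩
  unfold Idx4
  have p00 := hM (hpt 0 0 (by omega) (by omega))
  have p10 := hM (hpt 1 0 (by omega) (by omega))
  have p01 := hM (hpt 0 1 (by omega) (by omega))
  unfold boardZ pt at p00 p10 p01
  rw [mem_product, mem_Icc, mem_Icc] at p00 p10 p01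
  simp only [Nat.cast_zero, Nat.cast_one, zero_mul, one_mul, add_zero] at p00 p10 p01
  rw [mem_filter, mem_product, mem_product, mem_product, mem_product, mem_Icc, mem_Icc, mem_Icc,
    mem_Icc]
  refine ⟨⟨hM (hpt a b (by omega) (by omega)), ⟨⟨?_, ?_⟩, ⟨?_, ?_⟩⟩, ⟨?_, ?_⟩⟩, hd, hsub.trans hM,
    ?_, ?_⟩
  · show -(N : ℤ) ≤ u.1; omega
  · show u.1 ≤ (N : ℤ); omega
  · show -(N : ℤ) ≤ u.2; omega
  · show u.2 ≤ (N : ℤ); omega
  · constructor
    · show -(N : ℤ) ≤ v.1; omega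
    · show v.1 ≤ (N : ℤ); omega
  · constructor
    · show -(N : ℤ) ≤ v.2; omega
    · show v.2 ≤ (N : ℤ); omega
  · show (h : ℤ) ∣ det2 (pt P u v a b) v / det2 u v
    have e : det2 (pt P u v a b) v = det2 P v + a * det2 u v := by
      unfold det2 pt
      ring
    rw [e, Int.add_mul_ediv_right _ _ hd]
    exact hak
  · show (h : ℤ) ∣ det2 u (pt P u v a b) / det2 u v
    have e : det2 u (pt P u v a b) = det2 u P + b * det2 u v := by
      unfold det2 pt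
      ring
    rw [e, Int.add_mul_ediv_right _ _ hd]
    exact hbl

end Pool.Agent.KS6_32.RL
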