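import Pool.Agent.KS6_32.RL.Fam

set_option autoImplicit false
set_option linter.unusedVariables false

/-!
Families of lattices with steps of a given type.
-/

namespace Pool.Agent.KS6_32.RL

open Finset Pool.Agent.Rect22

variable (T : (ℤ × ℤ) × (ℤ × ℤ) → Prop) [DecidablePred T]

noncomputable def FamG (N q h : ℕ) : Finset (Finset (ℤ × ℤ)) :=
  ((Idx4 N q h).filter (fun A => T A.2)).image (latZ q)

noncomputable def SG (M : ℕ) : Finset ((ℤ × ℤ) × (ℤ × ℤ)) :=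
  (box M ×ˢ box M).filter (fun p => det2 p.1 p.2 ≠ 0 ∧ T p)

theorem mem_SG {M : ℕ} {p : (ℤ × ℤ) × (ℤ × ℤ)} :
    p ∈ SG T M ↔ (p.1 ∈ box M ∧ p.2 ∈ box M) ∧ det2 p.1 p.2 ≠ 0 ∧ T p := by
  unfold SG
  rw [mem_filter, mem_product]

theorem FamG_sub (N q h : ℕ) : FamG T N q h ⊆ Fam4 N q h :=
  image_subset_image (filter_subset _ _)

theorem mem_FamG {N q h : ℕ} {A : Finset (ℤ × ℤ)} (hA : A ∈ FamG T N q h) :
    ∃ I : Ind, I.1 ∈ boardZ N ∧ I.2.1 ∈ box N ∧ I.2.2 ∈ box N ∧ det2 I.2.1 I.2.2 ≠ 0 ∧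
      latZ q I ⊆ boardZ N ∧ T I.2 ∧ latZ q I = A := by
  unfold FamG at hA
  rw [mem_image] at hA
  obtain ⟨I, hI, hIA⟩ := hA
  rw [mem_filter] at hI
  obtain ⟨h1, h2⟩ := hI
  unfold Idx4 at h1
  rw [mem_filter, mem_product, mem_product] at h1
  exact ⟨I, h1.1.1, h1.1.2.1, h1.1.2.2, h1.2.1, h1.2.2.1, h2, hIA⟩

theorem FamG_card (N q h : ℕ) : (FamG T N q h).card ≤ N * N * (SG T N).card := by
  classical
  have hsub : FamG T N q h ⊆ (boardZ N ×ˢ SG T N).image (latZ q) := by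
    intro A hA
    obtain ⟨I, hP, h1, h2, hd, hs, hS, rfl⟩ := mem_FamG T hA
    rw [mem_image]
    refine ⟨I, ?_, rfl⟩
    rw [mem_product, mem_SG]
    exact ⟨hP, ⟨h1, h2⟩, hd, hS⟩
  have h1 := (card_le_card hsub).trans card_image_le
  rwa [card_product, board_card] at h1

theorem FamG_deg {N q : ℕ} (h : ℕ) (z : ℤ × ℤ) :
    ((FamG T N q h).filter (fun A => z ∈ A)).card ≤ (SG T N).card * (q * q) := by
  classical
  have hsub : (FamG T N q h).filter (fun A => z ∈ A) ⊆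
      (SG T N ×ˢ (range q ×ˢ range q)).image (fun x : ((ℤ × ℤ) × (ℤ × ℤ)) × (ℕ × ℕ) =>
          latZ q ((z.1 - x.2.1 * x.1.1.1 - x.2.2 * x.1.2.1,
            z.2 - x.2.1 * x.1.1.2 - x.2.2 * x.1.2.2), (x.1.1, x.1.2))) := by
    intro A hA
    rw [mem_filter] at hA
    obtain ⟨I, -, hu, hv, hd, -, hS, rfl⟩ := mem_FamG T hA.1
    have hz := hA.2
    unfold latZ at hz
    rw [mem_image] at hz
    obtain ⟨⟨i, j⟩, hij, hz⟩ := hz
    rw [mem_image]
    refine ⟨((I.2.1, I.2.2), (i, j)), ?_, ?_⟩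
    · rw [mem_product, mem_SG]
      exact ⟨⟨⟨hu, hv⟩, hd, hS⟩, hij⟩
    · simp only
      congr 1
      obtain ⟨P, u, v⟩ := I
      simp only [pt] at hz
      rw [← hz]
      simp only
      congr 1
      ext
      · show P.1 + i * u.1 + j * v.1 - i * u.1 - j * v.1 = P.1
        ring
      · show P.2 + i * u.2 + j * v.2 - i * u.2 - j * v.2 = P.2
        ring
  refine (card_le_card hsub).trans (card_image_le.trans ?_)
  rw [card_product, card_product, card_range]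

theorem FamG_pdeg {N q L : ℕ} (h : ℕ)
    (hL : ∀ d : ℤ × ℤ, d ≠ 0 → ∀ i j : ℤ, i ≠ 0 ∨ j ≠ 0 → ((SG T N).filter (fun p =>
      i * p.1.1 + j * p.2.1 = d.1 ∧ i * p.1.2 + j * p.2.2 = d.2)).card ≤ L)
    {x z : ℤ × ℤ} (hxz : x ≠ z) :
    ((FamG T N q h).filter (fun A => x ∈ A ∧ z ∈ A)).card ≤ L * q ^ 4 := by
  classical
  let G : (ℕ × ℕ) × (ℕ × ℕ) → Finset (Finset (ℤ × ℤ)) := fun t =>
    ((SG T N).filter (fun p => ((t.2.1 : ℤ) - t.1.1) * p.1.1 + ((t.2.2 : ℤ) - t.1.2) * p.2.1 =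
      (z.1 - x.1, z.2 - x.2).1 ∧ ((t.2.1 : ℤ) - t.1.1) * p.1.2 + ((t.2.2 : ℤ) - t.1.2) * p.2.2 =
      (z.1 - x.1, z.2 - x.2).2)).image (fun p => latZ q ((x.1 - t.1.1 * p.1.1 - t.1.2 * p.2.1,
        x.2 - t.1.1 * p.1.2 - t.1.2 * p.2.2), p))
  have hd : ((z.1 - x.1, z.2 - x.2) : ℤ × ℤ) ≠ 0 := by
    intro h0
    apply hxz
    have e1 : z.1 - x.1 = 0 := congrArg Prod.fst h0
    have e2 : z.2 - x.2 = 0 := congrArg Prod.snd h0
    exact Prod.ext (by omega) (by omega)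
  have hsub : (FamG T N q h).filter (fun A => x ∈ A ∧ z ∈ A) ⊆
      ((range q ×ˢ range q) ×ˢ (range q ×ˢ range q)).biUnion G := by
    intro A hA
    rw [mem_filter] at hA
    obtain ⟨hA1, hxA, hzA⟩ := hA
    obtain ⟨I, -, hu, hv, hdet, -, hS, rfl⟩ := mem_FamG T hA1
    unfold latZ at hxA hzA
    rw [mem_image] at hxA hzA
    obtain ⟨⟨i, j⟩, hij, hx⟩ := hxA
    obtain ⟨⟨i', j'⟩, hij', hz⟩ := hzA
    rw [mem_biUnion]
    refine ⟨((i, j), (i', j')), by rw [mem_product]; exact ⟨hij, hij'⟩, ?_⟩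
    show _ ∈ Finset.image _ _
    obtain ⟨P, u, v⟩ := I
    simp only [pt] at hx hz
    rw [mem_image]
    refine ⟨(u, v), ?_, ?_⟩
    · rw [mem_filter, mem_SG]
      refine ⟨⟨⟨hu, hv⟩, hdet, hS⟩, ?_, ?_⟩
      · rw [← hx, ← hz]
        show ((i' : ℤ) - i) * u.1 + ((j' : ℤ) - j) * v.1 =
          P.1 + i' * u.1 + j' * v.1 - (P.1 + i * u.1 + j * v.1)
        ring
      · rw [← hx, ← hz]
        show ((i' : ℤ) - i) * u.2 + ((j' : ℤ) - j) * v.2 =
          P.2 + i' * u.2 + j' * v.2 - (P.2 + i * u.2 + j * v.2)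
        ring
    · rw [← hx]
      show latZ q ((P.1 + i * u.1 + j * v.1 - i * u.1 - j * v.1,
        P.2 + i * u.2 + j * v.2 - i * u.2 - j * v.2), (u, v)) = latZ q (P, (u, v))
      congr 2
      refine Prod.ext ?_ ?_
      · show P.1 + i * u.1 + j * v.1 - i * u.1 - j * v.1 = P.1
        ring
      · show P.2 + i * u.2 + j * v.2 - i * u.2 - j * v.2 = P.2
        ring
  have hG : ∀ t ∈ (range q ×ˢ range q) ×ˢ (range q ×ˢ range q), (G t).card ≤ L := by
    intro t ht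
    refine card_image_le.trans ?_
    by_cases h0 : (t.2.1 : ℤ) - t.1.1 ≠ 0 ∨ (t.2.2 : ℤ) - t.1.2 ≠ 0
    · exact hL _ hd _ _ h0
    · push Not at h0
      rw [h0.1, h0.2]
      have : (SG T N).filter (fun p => (0 : ℤ) * p.1.1 + 0 * p.2.1 =
          (z.1 - x.1, z.2 - x.2).1 ∧ (0 : ℤ) * p.1.2 + 0 * p.2.2 =
          (z.1 - x.1, z.2 - x.2).2) = ∅ := by
        rw [eq_empty_iff_forall_notMem]
        intro p hp
        rw [mem_filter] at hp
        apply hd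
        obtain ⟨-, e1, e2⟩ := hp
        refine Prod.ext ?_ ?_
        · rw [← e1]
          show (0 : ℤ) * p.1.1 + 0 * p.2.1 = 0
          ring
        · rw [← e2]
          show (0 : ℤ) * p.1.2 + 0 * p.2.2 = 0
          ring
      rw [this, card_empty]
      omega
  refine (card_le_card hsub).trans (card_biUnion_le.trans ((sum_le_sum hG).trans ?_))
  rw [sum_const, card_product, card_product, card_range, smul_eq_mul]
  apply le_of_eq
  ring

theorem FamG_of_has {N q h q0 : ℕ} (hh : 1 ≤ h) (hq : 1 ≤ q) (hq0 : q + h ≤ q0)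
    {M : Finset (ℤ × ℤ)} (hM : M ⊆ boardZ N) {P u v : ℤ × ℤ} (hd : det2 u v ≠ 0)
    (hs : T (u, v)) (hpt : ∀ i j : ℕ, i < q0 → j < q0 → pt P u v (i : ℤ) (j : ℤ) ∈ M) :
    ∃ A ∈ FamG T N q h, A ⊆ M := by
  obtain ⟨a, ha, hak⟩ := exists_shift h hh (det2 P v / det2 u v)
  obtain ⟨b, hb, hbl⟩ := exists_shift h hh (det2 u P / det2 u v)
  have hsub : latZ q (pt P u v a b, (u, v)) ⊆ M := by
    intro x hx
    unfold latZ at hx
    rw [mem_image] at hx
    obtain ⟨⟨i, j⟩, hij, rfl⟩ := hx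
    rw [mem_product, mem_range, mem_range] at hij
    have h1 := hpt (a + i) (b + j) (by have := hij.1; simp only at this; omega)
      (by have := hij.2; simp only at this; omega)
    have e : pt (pt P u v a b) u v (i : ℤ) (j : ℤ) =
        pt P u v ((a + i : ℕ) : ℤ) ((b + j : ℕ) : ℤ) := by
      unfold pt
      refine Prod.ext ?_ ?_
      · push_cast
        ring
      · push_cast
        ring
    show pt (pt P u v a b) u v (i : ℤ) (j : ℤ) ∈ M
    rw [e]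
    exact h1
  refine ⟨latZ q (pt P u v a b, (u, v)), ?_, hsub⟩
  unfold FamG
  refine mem_image_of_mem _ ?_
  rw [mem_filter]
  refine ⟨?_, hs⟩
  unfold Idx4
  have p00 := hM (hpt 0 0 (by omega) (by omega))
  have p10 := hM (hpt 1 0 (by omega) (by omega))
  have p01 := hM (hpt 0 1 (by omega) (by omega))
  unfold boardZ pt at p00 p10 p01
  rw [mem_product, mem_Icc, mem_Icc] at p00 p10 p01
  simp only [Nat.cast_zero, Nat.cast_one, zero_mul, one_mul, add_zero] at p00 p10 p01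
  rw [mem_filter, mem_product, mem_product, mem_product, mem_product, mem_Icc, mem_Icc, mem_Icc,
    mem_Icc]
  refine ⟨⟨hM (hpt a b (by omega) (by omega)), ⟨⟨?_, ?_⟩, ⟨?_, ?_⟩⟩, ⟨?_, ?_⟩⟩, hd, hsub.trans hM,
    ?_, ?_⟩
  · show -(N : ℤ) ≤ u.1; omega
  · show u.1 ≤ (N : ℤ); omega
  · show -(N : ℤ) ≤ u.2; omega
  · show u.2 ≤ (N : ℤ); omega
  · constructor
    · show -(N : ℤ) ≤ v.1; omega
    · show v.1 ≤ (N : ℤ); omega
  · constructor
    · show -(N : ℤ) ≤ v.2; omega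
    · show v.2 ≤ (N : ℤ); omega
  · show (h : ℤ) ∣ det2 (pt P u v a b) v / det2 u v
    have e : det2 (pt P u v a b) v = det2 P v + a * det2 u v := by
      unfold det2 pt
      ring
    rw [e, Int.add_mul_ediv_right _ _ hd]
    exact hak
  · show (h : ℤ) ∣ det2 u (pt P u v a b) / det2 u v
    have e : det2 u (pt P u v a b) = det2 u P + b * det2 u v := by
      unfold det2 pt
      ring
    rw [e, Int.add_mul_ediv_right _ _ hd]
    exact hbl

/-! ### aligned squares -/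

/-- steps of aligned squares -/
def Sq (p : (ℤ × ℤ) × (ℤ × ℤ)) : Prop := p.1.2 = 0 ∧ p.2.1 = 0 ∧ p.2.2 = p.1.1

instance (p : (ℤ × ℤ) × (ℤ × ℤ)) : Decidable (Sq p) := by
  unfold Sq
  infer_instance

theorem sq_card (N : ℕ) : (SG Sq N).card ≤ 2 * N + 1 := by
  rw [← icc_card N]
  apply card_le_card_of_injOn (fun p => p.1.1)
  · intro p hp
    have := (mem_SG Sq).1 (mem_coe.1 hp)
    have h1 := this.1.1
    rw [mem_box] at h1
    rw [mem_coe, mem_Icc]
    exact h1.1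
  · intro p hp p' hp' h
    obtain ⟨-, -, a1, a2, a3⟩ := (mem_SG Sq).1 (mem_coe.1 hp)
    obtain ⟨-, -, b1, b2, b3⟩ := (mem_SG Sq).1 (mem_coe.1 hp')
    simp only at h
    exact Prod.ext (Prod.ext h (a1.trans b1.symm))
      (Prod.ext (a2.trans b2.symm) (a3.trans (h.trans b3.symm)))

theorem sq_pair (N : ℕ) {d : ℤ × ℤ} (i j : ℤ) (hij : i ≠ 0 ∨ j ≠ 0) :
    ((SG Sq N).filter (fun p =>
      i * p.1.1 + j * p.2.1 = d.1 ∧ i * p.1.2 + j * p.2.2 = d.2)).card ≤ 1 := by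
  rw [card_le_one]
  intro p hp p' hp'
  rw [mem_filter] at hp hp'
  obtain ⟨hp, e1, e2⟩ := hp
  obtain ⟨hp', e3, e4⟩ := hp'
  obtain ⟨-, -, a1, a2, a3⟩ := (mem_SG Sq).1 hp
  obtain ⟨-, -, b1, b2, b3⟩ := (mem_SG Sq).1 hp'
  have h : p.1.1 = p'.1.1 := by
    rcases hij with hi | hj
    · apply mul_left_cancel₀ hi
      rw [a2] at e1
      rw [b2] at e3
      linarith
    · apply mul_left_cancel₀ hj
      rw [a1, a3] at e2
      rw [b1, b3] at e4
      linarith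
  exact Prod.ext (Prod.ext h (a1.trans b1.symm))
    (Prod.ext (a2.trans b2.symm) (a3.trans (h.trans b3.symm)))

end Pool.Agent.KS6_32.RL
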