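import Pool.Agent.KS6_32.RL.Fam
import Pool.Graph.R_seed8.Rect22.Round
import Pool.Graph.R_seed8.Rect22.StratGen
import Pool.Graph.R_seed8.Rect22.Num2
import Pool.Graph.R_seed8.Rect22.HypGen

set_option autoImplicit false
set_option linter.unusedVariables false

/-!
Breaker wins the (2:2) game on rectangle and rhombus lattices.
-/

namespace Pool.Agent.KS6_32.RL

open Finset Filter Pool.Agent.Rect22

noncomputable def c2 (e : ℝ) : ℕ := (⌈4 / th e⌉₊ * (2 * ⌈4 / th e⌉₊ ^ 2 + 1) ^ 2) ^ 2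

noncomputable def C2 (e : ℝ) (N : ℕ) : ℕ :=
  (c2 e * ((qq 2 e N) ^ 2 * (qq 2 e N / Nat.sqrt (qq 2 e N) + 1) ^ 2)) / tt 2 e N

theorem tt_lower2 {e : ℝ} {N : ℕ} (h0 : 0 < th e) (h1 : 2 ≤ ⌊th e * qq 2 e N⌋₊) :
    th e * (qq 2 e N : ℝ) ^ 2 / 2 ≤ tt 2 e N := by
  have hpos : 0 ≤ th e * qq 2 e N := by positivity
  have h2 : (2 : ℝ) ≤ th e * qq 2 e N := by
    have := Nat.floor_le hpos
    have h3 : ((2 : ℕ) : ℝ) ≤ (⌊th e * qq 2 e N⌋₊ : ℝ) := by exact_mod_cast h1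
    push_cast at h3
    linarith
  have hq1 : (1 : ℝ) ≤ qq 2 e N := by
    have : 1 ≤ qq 2 e N := by
      by_contra hcon
      have h0 : qq 2 e N = 0 := by omega
      rw [h0] at h2
      norm_num at h2
    exact_mod_cast this
  have h3 := Nat.lt_floor_add_one (th e * (qq 2 e N : ℝ) ^ 2)
  have h4 : (2 : ℝ) ≤ th e * (qq 2 e N : ℝ) ^ 2 := by nlinarith
  unfold tt
  linarith

theorem C2_le {e : ℝ} (he : 0 < e) (he1 : e ≤ 1 / 20) :
    ∃ Kc : ℕ, ∀ᶠ N : ℕ in atTop, C2 e N ≤ Kc * qq 2 e N := by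
  obtain ⟨hth, hev⟩ := num_over (κ := 2) le_rfl (by norm_num) he he1
  refine ⟨⌈32 * (c2 e : ℝ) / th e⌉₊, ?_⟩
  filter_upwards [hev] with N hN
  obtain ⟨h1, h2, h3, h4, h5, h6⟩ := hN
  have ht := tt_lower2 hth h1
  set q := qq 2 e N with hq
  set s := Nat.sqrt q with hs
  have hs2 : s * s ≤ q := Nat.sqrt_le q
  have hs1 : (1 : ℝ) ≤ s := by exact_mod_cast h4
  have hs2' : (s : ℝ) * s ≤ q := by exact_mod_cast hs2
  have hq1 : (1 : ℝ) ≤ q := by nlinarith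
  have h5' : ((q / s + 1 : ℕ) : ℝ) ≤ 4 * s := by
    have : q / s + 1 ≤ 4 * s := by omega
    exact_mod_cast this
  have h5'' : ((q / s + 1 : ℕ) : ℝ) ^ 2 ≤ 16 * q := by
    calc ((q / s + 1 : ℕ) : ℝ) ^ 2 ≤ (4 * s) ^ 2 :=
          pow_le_pow_left₀ (Nat.cast_nonneg _) h5' 2
      _ = 16 * (s * s) := by ring
      _ ≤ 16 * q := by linarith
  have hC : (C2 e N : ℝ) * tt 2 e N ≤ c2 e * (q ^ 2 * (q / s + 1 : ℕ) ^ 2) := by
    have : C2 e N * tt 2 e N ≤ c2 e * (q ^ 2 * (q / s + 1) ^ 2) := Nat.div_mul_le_self _ _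
    exact_mod_cast this
  have h7 : (C2 e N : ℝ) * (th e * (q : ℝ) ^ 2 / 2) ≤ c2 e * (q ^ 2 * (16 * q)) := by
    calc (C2 e N : ℝ) * (th e * (q : ℝ) ^ 2 / 2) ≤ (C2 e N : ℝ) * tt 2 e N :=
          mul_le_mul_of_nonneg_left ht (Nat.cast_nonneg _)
      _ ≤ c2 e * (q ^ 2 * (q / s + 1 : ℕ) ^ 2) := hC
      _ ≤ c2 e * (q ^ 2 * (16 * q)) := by
          apply mul_le_mul_of_nonneg_left _ (Nat.cast_nonneg _)
          exact mul_le_mul_of_nonneg_left h5'' (by positivity)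
  have hq2 : (0 : ℝ) < (q : ℝ) ^ 2 := by positivity
  have h8 : (C2 e N : ℝ) ≤ 32 * (c2 e : ℝ) / th e * q := by
    rw [div_mul_eq_mul_div, le_div_iff₀ hth]
    have h9 : (C2 e N : ℝ) * th e * (q : ℝ) ^ 2 ≤ (32 * (c2 e : ℝ) * q) * (q : ℝ) ^ 2 := by
      nlinarith
    exact le_of_mul_le_mul_right h9 hq2
  have h13 : ((C2 e N : ℕ) : ℝ) ≤ ((⌈32 * (c2 e : ℝ) / th e⌉₊ * q : ℕ) : ℝ) := by
    push_cast
    refine h8.trans ?_
    exact mul_le_mul_of_nonneg_right (Nat.le_ceil _) (by linarith)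
  exact_mod_cast h13

/-- the logarithm is small against `q ^ 2` -/
theorem log_small {e : ℝ} (he : 0 < e) : ∀ᶠ N : ℕ in atTop,
    2 ≤ qq 2 e N ∧ Nat.log 2 N + 2 ≤ 4 * (qq 2 e N - 1) ^ 2 := by
  filter_upwards [(qq_tendsto (κ := 2) le_rfl he).eventually_ge_atTop 4,
    eventually_ge_atTop 1] with N hq hN
  refine ⟨by omega, ?_⟩
  have hN0 : (0 : ℝ) < N := by exact_mod_cast hN
  have h1 : (Nat.log 2 N : ℝ) ≤ Real.logb 2 N := by
    rw [Real.le_logb_iff_rpow_le (by norm_num) hN0, Real.rpow_natCast]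
    exact_mod_cast Nat.pow_log_le_self 2 (by omega)
  have hl0 : 0 ≤ Real.logb 2 N :=
    Real.logb_nonneg (by norm_num) (by exact_mod_cast hN)
  have h2 : (Real.logb 2 N : ℝ) ≤ (qq 2 e N : ℝ) ^ 2 := by
    have h3 : Real.sqrt (((2 : ℕ) + e) * ell N) ≤ qq 2 e N := Nat.le_ceil _
    have h4 : 0 ≤ Real.sqrt (((2 : ℕ) + e) * ell N) := Real.sqrt_nonneg _
    have h5 : Real.sqrt (((2 : ℕ) + e) * ell N) ^ 2 ≤ (qq 2 e N : ℝ) ^ 2 :=
      pow_le_pow_left₀ h4 h3 2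
    rw [Real.sq_sqrt (by unfold ell; push_cast; positivity)] at h5
    refine le_trans ?_ h5
    unfold ell
    push_cast
    nlinarith
  obtain ⟨q, hqd⟩ : ∃ q, q = qq 2 e N := ⟨_, rfl⟩
  rw [← hqd] at hq h2 ⊢
  have h6 : Nat.log 2 N ≤ q ^ 2 := by
    have : (Nat.log 2 N : ℝ) ≤ ((q ^ 2 : ℕ) : ℝ) := by
      push_cast
      linarith
    exact_mod_cast this
  obtain ⟨k, rfl⟩ : ∃ k, q = k + 1 := ⟨q - 1, by omega⟩
  simp only [Nat.add_sub_cancel]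
  nlinarith

theorem hypS {e : ℝ} (he : 0 < e) (he1 : e ≤ 1 / 20) :
    ∀ᶠ N : ℕ in atTop, Hyp (mkD 1 e 4500 12 N (boardZ N)
      (FamS N (qq 2 e N) (Nat.sqrt (qq 2 e N))) (Pr4 N) (C2 e N)) := by
  obtain ⟨Kc, hKc⟩ := C2_le he he1
  have hg := hyp_gen (ν := 1) le_rfl (by norm_num) he he1 4500 12 Kc (by norm_num)
  obtain ⟨hth, hev⟩ := num_over (κ := 2) le_rfl (by norm_num) he he1
  filter_upwards [hKc, hg, hev, eventually_ge_atTop 1, log_small he] with N h1 h2 h3 hN1 hlog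
  obtain ⟨g1, g2, g3, g4, g5, g6⟩ := h3
  have hq1 : 1 ≤ qq 2 e N := by omega
  have e21 : 2 * 1 = 2 := rfl
  simp only [e21] at h2
  have htpos : 0 < tt 2 e N := by omega
  have hsub := FamS_sub N (qq 2 e N) (Nat.sqrt (qq 2 e N))
  refine h2 (ℤ × ℤ) (boardZ N) _ (Pr4 N) _ h1 (fun A hA => Fam4_sub (hsub hA))
    (fun A hA => Fam4_card (hsub hA)) ?_ ?_ ?_ ?_ ?_ ?_ ?_
  · intro B hB
    have h4 := Fam4_over (N := N) (h := Nat.sqrt (qq 2 e N)) (K := ⌈4 / th e⌉₊) g4 g1 g2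
      (by omega) (hsub hB)
    refine (card_le_card (filter_subset_filter _ hsub)).trans ?_
    exact (Nat.le_div_iff_mul_le htpos).2 h4
  · intro z
    refine (FamS_deg _ hN1 hlog.2 z).trans ?_
    exact Nat.mul_le_mul_left _ (Nat.pow_le_pow_right hq1 (by norm_num))
  · intro p hp
    have hne : p.1 ≠ p.2 := by
      unfold Pr4 at hp
      exact (mem_filter.1 hp).2
    refine (FamS_pdeg _ hN1 hne).trans ?_
    have h5 : (qq 2 e N) ^ 4 ≤ (qq 2 e N) ^ 12 := Nat.pow_le_pow_right hq1 (by norm_num)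
    rw [pow_one]
    exact Nat.mul_le_mul (Nat.mul_le_mul_right _ (by norm_num)) h5
  · intro x z hxz hp
    have h5 := Fam4_gdeg (q := qq 2 e N) (h := Nat.sqrt (qq 2 e N)) hxz hp
    have h6 := card_le_card (filter_subset_filter (fun A => x ∈ A ∧ z ∈ A) hsub)
    omega
  · exact FamS_card hlog.1 hlog.2
  · refine (card_Pr4 N).trans ?_
    omega
  · intro A hA
    exact (card_le_card (image_subset_image hsub)).trans (Fam4_tr (hsub hA))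

theorem breakerWins_of_hypS {N q h q0 : ℕ} {D : Dat (ℤ × ℤ)} (H : Hyp D) (hV : D.V = boardZ N)
    (hF : D.Fam = FamS N q h) (hh : 1 ≤ h) (hq : 1 ≤ q) (hq0 : q + h ≤ q0)
    {𝓕 : Set (Set (ℤ × ℤ))} (h𝓕 : ∀ S ∈ 𝓕, ∃ P u v : ℤ × ℤ, det2 u v ≠ 0 ∧ Sp (u, v) ∧
      ∀ i j : ℕ, i < q0 → j < q0 → pt P u v (i : ℤ) (j : ℤ) ∈ S) :
    Gen.BreakerWins (boardZ N) 𝓕 := by
  refine Gen.breakerWins_of_rule (Good D) (good_start H) ?_ ?_
  · intro M B m hM hB hMB hG hm hm2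
    rw [← hV] at hm ⊢
    exact good_round H hG hm hm2
  · intro M B hM hB hMB hG hfull S hS hSM
    obtain ⟨P, u, v, hd, hs, hpt⟩ := h𝓕 S hS
    obtain ⟨A, hA, hAM⟩ := FamS_of_has hh hq hq0 hM hd hs
      (fun i j hi hj => mem_coe.1 (hSM (hpt i j hi hj)))
    rw [← hV] at hfull
    rw [← hF] at hA
    exact good_end H hG hfull hA hAM

theorem finalS (c : ℝ) (hc : Real.sqrt 2 < c) : ∃ N₀ : ℕ, ∀ N : ℕ, N₀ ≤ N → ∀ q : ℕ,
    c * Real.sqrt (Real.logb 2 N) ≤ q + 1 → ∀ 𝓕 : Set (Set (ℤ × ℤ)),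
    (∀ S ∈ 𝓕, ∃ P u v : ℤ × ℤ, det2 u v ≠ 0 ∧ Sp (u, v) ∧
      ∀ i j : ℕ, i < q → j < q → pt P u v (i : ℤ) (j : ℤ) ∈ S) →
    Gen.BreakerWins (boardZ N) 𝓕 := by
  have hc0 : 0 < c := lt_of_le_of_lt (Real.sqrt_nonneg 2) hc
  have hc2 : 2 < c ^ 2 := (Real.sqrt_lt' hc0).1 hc
  set e : ℝ := min ((c ^ 2 - 2) / 2) (1 / 20) with he_def
  have he : 0 < e := lt_min (by linarith) (by norm_num)
  have he1 : e ≤ 1 / 20 := min_le_right _ _
  have he2 : ((2 : ℕ) : ℝ) + e < c ^ 2 := by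
    have : e ≤ (c ^ 2 - 2) / 2 := min_le_left _ _
    push_cast
    linarith
  have h1 := hypS he he1
  have h2 := num_cont (κ := 2) le_rfl (by norm_num) he he1 hc0 he2
  obtain ⟨hth, h3⟩ := num_over (κ := 2) le_rfl (by norm_num) he he1
  have h4 := (h1.and h2).and h3
  obtain ⟨N₀, hN₀⟩ := eventually_atTop.1 h4
  refine ⟨N₀, fun N hN q hq 𝓕 h𝓕 => ?_⟩
  obtain ⟨⟨g1, g2⟩, g3⟩ := hN₀ N hN
  have hh : 1 ≤ Nat.sqrt (qq 2 e N) := g3.2.2.2.1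
  have hq1 : 1 ≤ qq 2 e N := by
    by_contra hcon
    have h0 : qq 2 e N = 0 := by omega
    rw [h0] at hh
    simp at hh
  exact breakerWins_of_hypS g1 rfl rfl hh hq1 (g2 q hq) h𝓕

end Pool.Agent.KS6_32.RL
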