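import Pool.Agent.KS6_32.RL.FamG
import Pool.Agent.KS6_32.RL.One2
import Pool.Agent.KS6_32.RL.One3
import Pool.Graph.R_seed8.Rect22.Init
import Pool.Graph.R_seed8.Rect22.HypGen
import Pool.Graph.R_seed8.Rect22.Round
import Pool.Graph.R_seed8.Rect22.StratGen

set_option autoImplicit false
set_option linter.unusedVariables false

/-!
Breaker wins the (2:2) game on aligned square lattices.
-/

namespace Pool.Agent.KS6_32.RL.One

open Finset Filter Pool.Agent.Rect22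

/-- the data of the game without special pairs -/
noncomputable def mkK {α : Type} (κ : ℕ) (e : ℝ) (K0 a N : ℕ) (V : Finset α)
    (Fam : Finset (Finset α)) (C1 : ℕ) : Dat α where
  V := V
  Fam := Fam
  Pr := ∅
  P := PP e N
  n := (qq κ e N) ^ 2
  R := RR e
  r := 80
  t := tt κ e N
  C1 := C1
  s0 := Nat.sqrt (qq κ e N)
  Q := (qq κ e N + 1) ^ a
  N1 := K0 * (N : ℝ) ^ (κ + 2)
  N2 := K0 * (N : ℝ) ^ 4
  sb := sbN κ e N

theorem hyp_gen {κ : ℕ} (hκ : 1 ≤ κ) (hκ4 : κ ≤ 4) {e : ℝ} (he : 0 < e) (he1 : e ≤ 1 / 20)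
    (K0 a Kc : ℕ) (hK0 : 1 ≤ K0) :
    ∀ᶠ N : ℕ in atTop, ∀ (α : Type) [DecidableEq α] (V : Finset α) (Fam : Finset (Finset α))
      (C1 : ℕ),
      C1 ≤ Kc * qq κ e N →
      (∀ A ∈ Fam, A ⊆ V) →
      (∀ A ∈ Fam, A.card = (qq κ e N) ^ 2) →
      (∀ B ∈ Fam, (Fam.filter (fun A => tt κ e N ≤ (A ∩ B).card)).card ≤ C1) →
      (∀ z, (Fam.filter (fun A => z ∈ A)).card ≤ K0 * N ^ κ * (qq κ e N) ^ a) →
      (∀ x z, x ≠ z → (Fam.filter (fun A => x ∈ A ∧ z ∈ A)).card ≤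
        K0 * (qq κ e N) ^ a) →
      Fam.card ≤ K0 * N ^ (κ + 2) →
      (∀ A ∈ Fam, (Fam.image (fun E => E ∩ A)).card ≤ (qq κ e N + 1) ^ a) →
      Hyp (mkK κ e K0 a N V Fam C1) := by
  obtain ⟨hRR, hsb0⟩ := num_sb0 hκ hκ4 he he1
  filter_upwards [num_heavy hκ hκ4 he he1 Kc, num_k0 hκ hκ4 he he1 Kc, num_mom hκ hκ4 he he1,
    num_small hκ hκ4 he he1 a, num_initX hκ hκ4 he he1 K0 a,
    hsb0, num_gen hκ hκ4 he he1 K0 a, num_hsb hκ hκ4 he he1 Kc, num_7 hκ hκ4 he he1 K0,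
    eventually_ge_atTop 1, eventually_gt_atTop (9 * K0),
    (qq_tendsto hκ he).eventually_ge_atTop 1] with N n1 n2 n3 n4 n5 n7 n8 n9 n10 n11 n12 n13
  intro α _ V Fam C1 hC1 hV hn hover hdeg hgen hcard htr
  have hN1 : (1 : ℝ) ≤ N := by exact_mod_cast n11
  have hN0 : (0 : ℝ) < N := by linarith
  have hK0r : (1 : ℝ) ≤ K0 := by exact_mod_cast hK0
  have hok : (PP e N).OK := PP_ok he he1 n11
  have hvb : 0 ≤ vbN κ e N := by
    unfold vbN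
    have h1 : 0 < 3 / 2 - e / 20 := by linarith
    positivity
  have hN1pos : 0 < (K0 : ℝ) * (N : ℝ) ^ (κ + 2) := by positivity
  have hN2pos : 0 < (K0 : ℝ) * (N : ℝ) ^ 4 := by positivity
  refine
    { pok := hok
      hV := hV
      hn := hn
      hover := hover
      N1pos := hN1pos
      N2pos := hN2pos
      hR := hRR
      sb0 := n7
      sb1 := ?_
      hgen := ?_
      hsb := ?_
      hnum := ?_
      init := ?_
      heavy := ?_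
      tr := htr
      hc := n4
      hk := n2 C1 hC1
      hs0 := ?_ }
  · show 2 * ((RR e : ℝ) * (((qq κ e N) ^ 2 : ℕ) : ℝ) * sbN κ e N) ≤ e / 20
    unfold sbN
    have hR0 : (RR e : ℝ) ≠ 0 := by
      have : (1 : ℝ) ≤ RR e := by exact_mod_cast hRR
      linarith
    have hq0 : (((qq κ e N) ^ 2 : ℕ) : ℝ) ≠ 0 := by
      have : 0 < (qq κ e N) ^ 2 := by positivity
      exact_mod_cast this.ne'
    apply le_of_eq
    field_simp
  · intro x z hxz hxzP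
    show ((Fam.filter (fun A => x ∈ A ∧ z ∈ A)).card : ℝ) * vbN κ e N ≤ sbN κ e N
    have h1 : ((Fam.filter (fun A => x ∈ A ∧ z ∈ A)).card : ℝ) ≤
        ((K0 * (qq κ e N) ^ a : ℕ) : ℝ) := by
      exact_mod_cast hgen x z hxz
    exact (mul_le_mul_of_nonneg_right h1 hvb).trans n8
  · show ((80 : ℕ) : ℝ) * ((C1 : ℝ) * vbN κ e N) < sbN κ e N
    have := n9 C1 hC1
    push_cast
    linarith
  · show (((N : ℝ) ^ (e / 16) / (N : ℝ) ^ ((1 : ℝ) / 10)) *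
      (2 / (e / 3200)) ^ (80 * tt κ e N + 2)) ^ 80 * (9 * ((K0 : ℝ) * (N : ℝ) ^ 4)) <
      (sbN κ e N - ((80 : ℕ) : ℝ) * ((C1 : ℝ) * vbN κ e N)) ^ 80
    have h1 := n9 C1 hC1
    have h2 : sbN κ e N / 2 ≤
        sbN κ e N - ((80 : ℕ) : ℝ) * ((C1 : ℝ) * vbN κ e N) := by
      push_cast
      linarith
    have h3 : 0 ≤ sbN κ e N / 2 := by linarith
    calc _ ≤ (N : ℝ) ^ (-(7 : ℝ)) * (9 * ((K0 : ℝ) * (N : ℝ) ^ 4)) :=
          mul_le_mul_of_nonneg_right n3 (by positivity)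
      _ < (sbN κ e N / 2) ^ 80 := n10
      _ ≤ _ := pow_le_pow_left₀ h3 h2 80
  · show Ups (KK Fam ∅ (RR e) 80) (ww (PP e N) ((K0 : ℝ) * (N : ℝ) ^ (κ + 2))
      ((K0 : ℝ) * (N : ℝ) ^ 4) (⟨V, ∅, ∅, fun _ => ∅⟩ : St α)) ≤ 3
    rw [hyp_gen_ups27203]
    have h1 := init_X hok hV hn hdeg (RR e)
    have h2 := init_P (V := V) (Pr := ∅) (pd := 0) hok hn (by simp) 80
    have h3 : Ups (XK Fam (RR e)) (xw (PP e N) (⟨V, ∅, ∅, fun _ => ∅⟩ : St α)) ≤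
        ((K0 : ℝ) * (N : ℝ) ^ (κ + 2)) * 2 := by
      refine h1.trans ?_
      have h4 : (Fam.card : ℝ) ≤ (K0 : ℝ) * (N : ℝ) ^ (κ + 2) := by exact_mod_cast hcard
      refine mul_le_mul h4 n5 ?_ hN1pos.le
      apply pow_nonneg
      have h5 : 0 ≤ (PP e N).sig := zero_le_one.trans hok.sig1
      have h6 : 0 ≤ (PP e N).pb := hok.pq0.le.trans hok.pqb
      have h7 := hok.pq0
      have h8 := hok.zet0
      positivity
    have h4 : Ups (PK Fam ∅ 80) (pw (PP e N) (⟨V, ∅, ∅, fun _ => ∅⟩ : St α)) ≤ 0 := by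
      refine h2.trans ?_
      simp
    have h5 : Ups (XK Fam (RR e)) (xw (PP e N) (⟨V, ∅, ∅, fun _ => ∅⟩ : St α)) /
        ((K0 : ℝ) * (N : ℝ) ^ (κ + 2)) ≤ 2 := by
      rw [div_le_iff₀ hN1pos]
      linarith
    have h6 : Ups (PK Fam ∅ 80) (pw (PP e N) (⟨V, ∅, ∅, fun _ => ∅⟩ : St α)) /
        ((K0 : ℝ) * (N : ℝ) ^ 4) ≤ 1 := by
      rw [div_le_iff₀ hN2pos]
      linarith
    linarith
  · have h1 := n1 C1 hC1
    have h2 : 2 * (RR e * C1 * Nat.sqrt (qq κ e N)) + Nat.sqrt (qq κ e N) + 1 +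
          RR e * tt κ e N = (mkK κ e K0 a N V Fam C1).k1 +
            (mkK κ e K0 a N V Fam C1).R * (mkK κ e K0 a N V Fam C1).t := by
      show _ = ((RR e * C1 * Nat.sqrt (qq κ e N)) + Nat.sqrt (qq κ e N) + 1 +
        (RR e * C1 * Nat.sqrt (qq κ e N))) + RR e * tt κ e N
      ring
    rw [h2] at h1
    refine lt_of_lt_of_le ?_ h1
    show 9 * ((K0 : ℝ) * (N : ℝ) ^ (κ + 2)) < (N : ℝ) ^ 7
    have h3 : (N : ℝ) ^ (κ + 2) ≤ (N : ℝ) ^ 6 := pow_le_pow_right₀ hN1 (by omega)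
    have h4 : (9 : ℝ) * K0 < N := by exact_mod_cast n12
    calc 9 * ((K0 : ℝ) * (N : ℝ) ^ (κ + 2)) ≤ 9 * ((K0 : ℝ) * (N : ℝ) ^ 6) := by gcongr
      _ = (9 * K0) * (N : ℝ) ^ 6 := by ring
      _ < N * (N : ℝ) ^ 6 := mul_lt_mul_of_pos_right h4 (by positivity)
      _ = (N : ℝ) ^ 7 := by ring
  · show 1 ≤ Nat.sqrt (qq κ e N)
    exact Nat.sqrt_pos.mpr (by omega)

noncomputable def c1 (e : ℝ) : ℕ := (⌈4 / th e⌉₊ * (2 * ⌈4 / th e⌉₊ ^ 2 + 1) ^ 2) ^ 2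

noncomputable def C1 (κ : ℕ) (e : ℝ) (N : ℕ) : ℕ :=
  (c1 e * ((qq κ e N) ^ 2 * (qq κ e N / Nat.sqrt (qq κ e N) + 1) ^ 2)) / tt κ e N

theorem tt_lower {κ : ℕ} {e : ℝ} {N : ℕ} (h0 : 0 < th e) (h1 : 2 ≤ ⌊th e * qq κ e N⌋₊) :
    th e * (qq κ e N : ℝ) ^ 2 / 2 ≤ tt κ e N := by
  have hpos : 0 ≤ th e * qq κ e N := by positivity
  have h2 : (2 : ℝ) ≤ th e * qq κ e N := by
    have := Nat.floor_le hpos
    have h3 : ((2 : ℕ) : ℝ) ≤ (⌊th e * qq κ e N⌋₊ : ℝ) := by exact_mod_cast h1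
    push_cast at h3
    linarith
  have hq1 : (1 : ℝ) ≤ qq κ e N := by
    have : 1 ≤ qq κ e N := by
      by_contra hcon
      have h0 : qq κ e N = 0 := by omega
      rw [h0] at h2
      norm_num at h2
    exact_mod_cast this
  have h3 := Nat.lt_floor_add_one (th e * (qq κ e N : ℝ) ^ 2)
  have h4 : (2 : ℝ) ≤ th e * (qq κ e N : ℝ) ^ 2 := by nlinarith
  unfold tt
  linarith

theorem C1_le {κ : ℕ} (hκ : 1 ≤ κ) (hκ4 : κ ≤ 4) {e : ℝ} (he : 0 < e) (he1 : e ≤ 1 / 20) :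
    ∃ Kc : ℕ, ∀ᶠ N : ℕ in atTop, C1 κ e N ≤ Kc * qq κ e N := by
  obtain ⟨hth, hev⟩ := num_over hκ hκ4 he he1
  refine ⟨⌈32 * (c1 e : ℝ) / th e⌉₊, ?_⟩
  filter_upwards [hev] with N hN
  obtain ⟨h1, h2, h3, h4, h5, h6⟩ := hN
  have ht := tt_lower hth h1
  set q := qq κ e N with hq
  set s := Nat.sqrt q with hs
  have hs2 : s * s ≤ q := Nat.sqrt_le q
  have hs1 : (1 : ℝ) ≤ s := by exact_mod_cast h4
  have hs2' : (s : ℝ) * s ≤ q := by exact_mod_cast hs2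
  have hq1 : (1 : ℝ) ≤ q := by nlinarith
  have h5' : ((q / s + 1 : ℕ) : ℝ) ≤ 4 * s := by
    have : q / s + 1 ≤ 4 * s := by omega
    exact_mod_cast this
  have h5'' : ((q / s + 1 : ℕ) : ℝ) ^ 2 ≤ 16 * q := by
    calc ((q / s + 1 : ℕ) : ℝ) ^ 2 ≤ (4 * s) ^ 2 :=
          pow_le_pow_left₀ (Nat.cast_nonneg _) h5' 2
      _ = 16 * (s * s) := by ring
      _ ≤ 16 * q := by linarith
  have hC : (C1 κ e N : ℝ) * tt κ e N ≤ c1 e * (q ^ 2 * (q / s + 1 : ℕ) ^ 2) := by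
    have : C1 κ e N * tt κ e N ≤ c1 e * (q ^ 2 * (q / s + 1) ^ 2) := Nat.div_mul_le_self _ _
    exact_mod_cast this
  have h7 : (C1 κ e N : ℝ) * (th e * (q : ℝ) ^ 2 / 2) ≤ c1 e * (q ^ 2 * (16 * q)) := by
    calc (C1 κ e N : ℝ) * (th e * (q : ℝ) ^ 2 / 2) ≤ (C1 κ e N : ℝ) * tt κ e N :=
          mul_le_mul_of_nonneg_left ht (Nat.cast_nonneg _)
      _ ≤ c1 e * (q ^ 2 * (q / s + 1 : ℕ) ^ 2) := hC
      _ ≤ c1 e * (q ^ 2 * (16 * q)) := by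
          apply mul_le_mul_of_nonneg_left _ (Nat.cast_nonneg _)
          exact mul_le_mul_of_nonneg_left h5'' (by positivity)
  have hq2 : (0 : ℝ) < (q : ℝ) ^ 2 := by positivity
  have h8 : (C1 κ e N : ℝ) ≤ 32 * (c1 e : ℝ) / th e * q := by
    rw [div_mul_eq_mul_div, le_div_iff₀ hth]
    have h9 : (C1 κ e N : ℝ) * th e * (q : ℝ) ^ 2 ≤ (32 * (c1 e : ℝ) * q) * (q : ℝ) ^ 2 := by
      nlinarith
    exact le_of_mul_le_mul_right h9 hq2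
  have h13 : ((C1 κ e N : ℕ) : ℝ) ≤ ((⌈32 * (c1 e : ℝ) / th e⌉₊ * q : ℕ) : ℝ) := by
    push_cast
    refine h8.trans ?_
    exact mul_le_mul_of_nonneg_right (Nat.le_ceil _) (by linarith)
  exact_mod_cast h13

/-- Hypotheses for a family of types of steps with at most `K N ^ κ` members and such that at most
`K` members have a given combination. -/
theorem hypG (T : (ℤ × ℤ) × (ℤ × ℤ) → Prop) [DecidablePred T] {κ K : ℕ} (hκ : 1 ≤ κ)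
    (hκ4 : κ ≤ 4) (hK : 1 ≤ K)
    (hT : ∀ N : ℕ, 1 ≤ N → (SG T N).card ≤ K * N ^ κ)
    (hT2 : ∀ N : ℕ, 1 ≤ N → ∀ d : ℤ × ℤ, d ≠ 0 → ∀ i j : ℤ, i ≠ 0 ∨ j ≠ 0 →
      ((SG T N).filter (fun p =>
        i * p.1.1 + j * p.2.1 = d.1 ∧ i * p.1.2 + j * p.2.2 = d.2)).card ≤ K)
    {e : ℝ} (he : 0 < e) (he1 : e ≤ 1 / 20) :
    ∀ᶠ N : ℕ in atTop, Hyp (mkK κ e K 12 N (boardZ N)
      (FamG T N (qq κ e N) (Nat.sqrt (qq κ e N))) (C1 κ e N)) := by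
  obtain ⟨Kc, hKc⟩ := C1_le hκ hκ4 he he1
  have hg := hyp_gen hκ hκ4 he he1 K 12 Kc hK
  obtain ⟨hth, hev⟩ := num_over hκ hκ4 he he1
  filter_upwards [hKc, hg, hev, eventually_ge_atTop 1] with N h1 h2 h3 hN1
  obtain ⟨g1, g2, g3, g4, g5, g6⟩ := h3
  have hq1 : 1 ≤ qq κ e N := by
    by_contra hcon
    have : qq κ e N = 0 := by omega
    rw [this] at g4
    simp at g4
  have htpos : 0 < tt κ e N := by omega
  have hsub := FamG_sub T N (qq κ e N) (Nat.sqrt (qq κ e N))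
  have hT1 := hT N hN1
  refine h2 (ℤ × ℤ) (boardZ N) _ _ h1 (fun A hA => Fam4_sub (hsub hA))
    (fun A hA => Fam4_card (hsub hA)) ?_ ?_ ?_ ?_ ?_
  · intro B hB
    have h4 := Fam4_over (N := N) (h := Nat.sqrt (qq κ e N)) (K := ⌈4 / th e⌉₊) g4 g1 g2
      (by omega) (hsub hB)
    refine (card_le_card (filter_subset_filter _ hsub)).trans ?_
    exact (Nat.le_div_iff_mul_le htpos).2 h4
  · intro z
    refine (FamG_deg T _ z).trans ?_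
    have h5 : (qq κ e N) * (qq κ e N) ≤ (qq κ e N) ^ 12 := by
      rw [← sq]
      exact Nat.pow_le_pow_right hq1 (by norm_num)
    exact Nat.mul_le_mul hT1 h5
  · intro x z hxz
    refine (FamG_pdeg T _ (hT2 N hN1) hxz).trans ?_
    exact Nat.mul_le_mul_left _ (Nat.pow_le_pow_right hq1 (by norm_num))
  · refine (FamG_card T _ _ _).trans ?_
    calc N * N * (SG T N).card ≤ N * N * (K * N ^ κ) := Nat.mul_le_mul_left _ hT1
      _ = K * N ^ (κ + 2) := by ring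
  · intro A hA
    exact (card_le_card (image_subset_image hsub)).trans (Fam4_tr (hsub hA))

theorem finalG (T : (ℤ × ℤ) × (ℤ × ℤ) → Prop) [DecidablePred T] {κ K : ℕ} (hκ : 1 ≤ κ)
    (hκ4 : κ ≤ 4) (hK : 1 ≤ K)
    (hT : ∀ N : ℕ, 1 ≤ N → (SG T N).card ≤ K * N ^ κ)
    (hT2 : ∀ N : ℕ, 1 ≤ N → ∀ d : ℤ × ℤ, d ≠ 0 → ∀ i j : ℤ, i ≠ 0 ∨ j ≠ 0 →
      ((SG T N).filter (fun p =>
        i * p.1.1 + j * p.2.1 = d.1 ∧ i * p.1.2 + j * p.2.2 = d.2)).card ≤ K)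
    (c : ℝ) (hc : Real.sqrt κ < c) : ∃ N₀ : ℕ, ∀ N : ℕ, N₀ ≤ N → ∀ q : ℕ,
    c * Real.sqrt (Real.logb 2 N) ≤ q + 1 → ∀ 𝓕 : Set (Set (ℤ × ℤ)),
    (∀ S ∈ 𝓕, ∃ P u v : ℤ × ℤ, det2 u v ≠ 0 ∧ T (u, v) ∧
      ∀ i j : ℕ, i < q → j < q → pt P u v (i : ℤ) (j : ℤ) ∈ S) →
    Gen.BreakerWins (boardZ N) 𝓕 := by
  have hc0 : 0 < c := lt_of_le_of_lt (Real.sqrt_nonneg _) hc
  have hc2 : κ < c ^ 2 := (Real.sqrt_lt' hc0).1 hc
  set e : ℝ := min ((c ^ 2 - κ) / 2) (1 / 20) with he_def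
  have he : 0 < e := lt_min (by linarith) (by norm_num)
  have he1 : e ≤ 1 / 20 := min_le_right _ _
  have he2 : (κ : ℝ) + e < c ^ 2 := by
    have : e ≤ (c ^ 2 - κ) / 2 := min_le_left _ _
    linarith
  have h1 := hypG T hκ hκ4 hK hT hT2 he he1
  have h2 := num_cont hκ hκ4 he he1 hc0 he2
  obtain ⟨hth, h3⟩ := num_over hκ hκ4 he he1
  have h4 := (h1.and h2).and h3
  obtain ⟨N₀, hN₀⟩ := eventually_atTop.1 h4
  refine ⟨N₀, fun N hN q hq 𝓕 h𝓕 => ?_⟩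
  obtain ⟨⟨g1, g2⟩, g3⟩ := hN₀ N hN
  have hh : 1 ≤ Nat.sqrt (qq κ e N) := g3.2.2.2.1
  have hq1 : 1 ≤ qq κ e N := by
    by_contra hcon
    have h0 : qq κ e N = 0 := by omega
    rw [h0] at hh
    simp at hh
  have g2' := g2 q hq
  obtain ⟨D, hD⟩ : ∃ D, D = mkK κ e K 12 N (boardZ N)
      (FamG T N (qq κ e N) (Nat.sqrt (qq κ e N))) (C1 κ e N) := ⟨_, rfl⟩
  rw [← hD] at g1
  have hV : D.V = boardZ N := by rw [hD]; rfl
  have hF : D.Fam = FamG T N (qq κ e N) (Nat.sqrt (qq κ e N)) := by rw [hD]; rfl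
  refine Gen.breakerWins_of_rule (Good D) (good_start g1) ?_ ?_
  · intro M B m hM hB hMB hG hm hm2
    rw [← hV] at hm ⊢
    exact good_round g1 hG hm hm2
  · intro M B hM hB hMB hG hfull S hS hSM
    obtain ⟨P, u, v, hd, hs, hpt⟩ := h𝓕 S hS
    obtain ⟨A, hA, hAM⟩ := FamG_of_has T hh hq1 g2' hM hd hs
      (fun i j hi hj => mem_coe.1 (hSM (hpt i j hi hj)))
    rw [← hV] at hfull
    rw [← hF] at hA
    exact good_end g1 hG hfull hA hAM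

end Pool.Agent.KS6_32.RL.One
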